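import Pool.Agent.H459.UN.Stm

set_option autoImplicit false
set_option linter.all false

open Polynomial IsDedekindDomain NumberField

namespace Pool.Agent.H390.UN

open Pool.Agent.H459.UN

theorem basis_eq {K : Type} [Field K] {g : K[X]} (hg : g.Monic) (i : Fin g.natDegree) :
    AdjoinRoot.powerBasisAux' hg i = AdjoinRoot.mk g (X ^ (i : ℕ)) := by
  have h := (AdjoinRoot.powerBasis' hg).basis_eq_pow i
  rw [map_pow, AdjoinRoot.mk_X]
  exact h

theorem norm_map {F M : Type} [Field F] [Field M] (φ : F →+* M) (g : F[X]) (hg : g.Monic) (p : F[X]) :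
    φ (Algebra.norm F (AdjoinRoot.mk g p)) =
      Algebra.norm M (AdjoinRoot.mk (g.map φ) (p.map φ)) := by
  classical
  have hg' := hg.map φ
  have hdeg : (g.map φ).natDegree = g.natDegree := natDegree_map φ
  rw [Algebra.norm_eq_matrix_det (AdjoinRoot.powerBasisAux' hg),
    Algebra.norm_eq_matrix_det ((AdjoinRoot.powerBasisAux' hg').reindex (finCongr hdeg)),
    RingHom.map_det]
  congr 1
  ext i j
  rw [RingHom.mapMatrix_apply, Matrix.map_apply, Algebra.leftMulMatrix_eq_repr_mul,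
    Algebra.leftMulMatrix_eq_repr_mul, Module.Basis.repr_reindex_apply, Module.Basis.reindex_apply,
    basis_eq, basis_eq, ← map_mul, ← map_mul, AdjoinRoot.powerBasisAux'_repr_apply_to_fun,
    AdjoinRoot.powerBasisAux'_repr_apply_to_fun, AdjoinRoot.modByMonicHom_mk,
    AdjoinRoot.modByMonicHom_mk, ← coeff_map, map_modByMonic φ hg, Polynomial.map_mul,
    Polynomial.map_pow, Polynomial.map_X]
  rfl

theorem cb_monic {K : Type} [Field K] (A B : K) : (cb A B).Monic := by
  unfold cb
  monicity!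

theorem cb_natDegree {K : Type} [Field K] (A B : K) : (cb A B).natDegree = 3 := by
  unfold cb
  compute_degree!

theorem cb_map {K L : Type} [Field K] [Field L] (φ : K →+* L) (A B : K) :
    (cb A B).map φ = cb (φ A) (φ B) := by
  unfold cb
  simp

section tau

variable {F M : Type} [Field F] [Field M] [Algebra F M] (A B : F)

/-- the cubic over `M` -/
noncomputable abbrev fM (M : Type) [Field M] [Algebra F M] (A B : F) : M[X] :=
  cb (algebraMap F M A) (algebraMap F M B)

theorem fM_map (σ : M ≃ₐ[F] M) : (fM M A B).map ((σ : M ≃+* M) : M →+* M) = fM M A B := by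
  rw [cb_map]
  congr 1
  · exact σ.commutes A
  · exact σ.commutes B

/-- the action of the Galois group on `M[X]/(f)` -/
noncomputable def tau (σ : M ≃ₐ[F] M) : AdjoinRoot (fM M A B) ≃+* AdjoinRoot (fM M A B) :=
  AdjoinRoot.mapRingEquiv (σ : M ≃+* M) (fM M A B) (fM M A B) (by rw [fM_map])

theorem tau_mk (σ : M ≃ₐ[F] M) (p : M[X]) :
    tau A B σ (AdjoinRoot.mk _ p) = AdjoinRoot.mk _ (p.map ((σ : M ≃+* M) : M →+* M)) := by
  show AdjoinRoot.map ((σ : M ≃+* M) : M →+* M) (fM M A B) (fM M A B) (by rw [fM_map])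
    (AdjoinRoot.mk _ p) = _
  unfold AdjoinRoot.map
  rw [AdjoinRoot.lift_mk, ← eval₂_map, ← AdjoinRoot.aeval_eq, aeval_def, AdjoinRoot.algebraMap_eq]

theorem tau_mul (σ σ' : M ≃ₐ[F] M) (x : AdjoinRoot (fM M A B)) :
    tau A B (σ * σ') x = tau A B σ (tau A B σ' x) := by
  obtain ⟨p, rfl⟩ := AdjoinRoot.mk_surjective x
  rw [tau_mk, tau_mk, tau_mk, Polynomial.map_map]
  rfl

theorem tau_norm (σ : M ≃ₐ[F] M) (x : AdjoinRoot (fM M A B)) :
    Algebra.norm M (tau A B σ x) = σ (Algebra.norm M x) := by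
  have h := Algebra.norm_eq_of_equiv_equiv (σ : M ≃+* M) (tau A B σ) (by
    ext y
    show AdjoinRoot.of _ (σ y) = tau A B σ (AdjoinRoot.of _ y)
    rw [← AdjoinRoot.mk_C, ← AdjoinRoot.mk_C, tau_mk, Polynomial.map_C]
    rfl) x
  rw [h]
  exact (RingEquiv.apply_symm_apply (σ : M ≃+* M) _).symm

theorem tau_ne {σ σ' : M ≃ₐ[F] M}
    (h : ∀ x : AdjoinRoot (fM M A B), tau A B σ x = tau A B σ' x)
    (hinj : Function.Injective (AdjoinRoot.of (fM M A B))) : σ = σ' := by
  ext y
  apply hinj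
  have h1 := h (AdjoinRoot.of _ y)
  rw [← AdjoinRoot.mk_C, tau_mk, tau_mk, Polynomial.map_C, Polynomial.map_C, AdjoinRoot.mk_C,
    AdjoinRoot.mk_C] at h1
  exact h1

end tau

theorem h90 : S_H90 := by
  intro F M _ _ _ _ _ _ A B hirr h hcop hsq hinv
  classical
  haveI : Fact (Irreducible (fM M A B)) := ⟨hirr⟩
  haveI : FiniteDimensional F M := Module.Finite.of_restrictScalars_finite ℚ F M
  set E := AdjoinRoot (fM M A B) with hE
  have hmon : (fM M A B).Monic := cb_monic _ _
  have hfin : Module.Finite M E := hmon.finite_adjoinRoot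
  have hdim : Module.finrank M E = 3 := by
    have h1 := (AdjoinRoot.powerBasis' hmon).finrank
    rw [h1]
    exact cb_natDegree _ _
  have hofinj : Function.Injective (AdjoinRoot.of (fM M A B)) := by
    apply AdjoinRoot.of.injective_of_degree_ne_zero
    rw [degree_eq_natDegree hmon.ne_zero, cb_natDegree]
    norm_num
  -- norms
  have hNneg : ∀ x : E, Algebra.norm M (-x) = -Algebra.norm M x := by
    intro x
    have e1 : -x = algebraMap M E (-1) * x := by rw [map_neg, map_one]; ring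
    rw [e1, map_mul, Algebra.norm_algebraMap, hdim]
    ring
  have hN0 : ∀ x : E, x ≠ 0 → Algebra.norm M x ≠ 0 := fun x hx =>
    Algebra.norm_ne_zero_iff.2 hx
  set α : E := AdjoinRoot.mk (fM M A B) h with hα
  have hα0 : α ≠ 0 := by
    rw [hα, Ne, AdjoinRoot.mk_eq_zero]
    exact (hirr.coprime_iff_not_dvd).1 hcop.symm
  obtain ⟨n, hn⟩ := hsq
  have hn' : Algebra.norm M α = n * n := hn
  have hn0 : n ≠ 0 := by
    intro h0
    rw [h0, mul_zero] at hn'
    exact hN0 α hα0 hn'
  -- the cocycle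
  have hs : ∀ σ : M ≃ₐ[F] M, ∃ s : E, tau A B σ α = α * s ^ 2 ∧ Algebra.norm M s = σ n / n := by
    intro σ
    obtain ⟨p, hp⟩ := hinv σ
    have h1 : tau A B σ α * α = (AdjoinRoot.mk (fM M A B) p) ^ 2 := by
      rw [hα, tau_mk, ← map_mul, ← map_pow, AdjoinRoot.mk_eq_mk]
      exact hp
    set s : E := AdjoinRoot.mk (fM M A B) p / α with hsd
    have h2 : tau A B σ α = α * s ^ 2 := by
      rw [hsd, div_pow, ← h1]
      field_simp
    have h3 : Algebra.norm M s ^ 2 = (σ n / n) ^ 2 := by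
      have h4 := congrArg (Algebra.norm M) h2
      rw [tau_norm, map_mul, map_pow, hn', map_mul] at h4
      rw [div_pow, eq_div_iff (pow_ne_zero 2 hn0)]
      linear_combination -h4
    rcases sq_eq_sq_iff_eq_or_eq_neg.1 h3 with h4 | h4
    · exact ⟨s, h2, h4⟩
    · refine ⟨-s, ?_, ?_⟩
      · rw [neg_sq]
        exact h2
      · rw [hNneg, h4, neg_neg]
  choose s hs1 hs2 using hs
  have hσn : ∀ σ : M ≃ₐ[F] M, σ n ≠ 0 := fun σ => by
    rw [Ne, EmbeddingLike.map_eq_zero_iff]
    exact hn0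
  have hs0 : ∀ σ, s σ ≠ 0 := by
    intro σ h0
    have h1 := hs2 σ
    rw [h0, Algebra.norm_zero] at h1
    exact (div_ne_zero (hσn σ) hn0) h1.symm
  have hcoc : ∀ σ σ', s (σ * σ') = s σ * tau A B σ (s σ') := by
    intro σ σ'
    have h1 : s (σ * σ') ^ 2 = (s σ * tau A B σ (s σ')) ^ 2 := by
      have h2 := hs1 (σ * σ')
      rw [tau_mul, hs1 σ', map_mul, map_pow, hs1 σ] at h2
      have h3 : α * (s (σ * σ') ^ 2) = α * ((s σ * tau A B σ (s σ')) ^ 2) := by
        rw [← h2]
        ring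
      exact mul_left_cancel₀ hα0 h3
    rcases sq_eq_sq_iff_eq_or_eq_neg.1 h1 with h2 | h2
    · exact h2
    · exfalso
      have h3 := congrArg (Algebra.norm M) h2
      rw [hNneg, map_mul, tau_norm, hs2, hs2, hs2, map_div₀] at h3
      have h4 : (σ n / n) * (σ (σ' n) / σ n) = σ (σ' n) / n := by
        have := hσn σ
        field_simp
      rw [h4] at h3
      have h5 : σ (σ' n) / n ≠ 0 := by
        apply div_ne_zero _ hn0
        rw [Ne, EmbeddingLike.map_eq_zero_iff]
        exact hσn σ'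
      have h6 : (2 : M) * (σ (σ' n) / n) = 0 := by
        have h7 : (σ * σ') n = σ (σ' n) := rfl
        rw [h7] at h3
        linear_combination h3
      rcases mul_eq_zero.1 h6 with h7 | h7
      · exact two_ne_zero h7
      · exact h5 h7
  -- Hilbert 90
  have hlin : LinearIndependent E (fun σ : M ≃ₐ[F] M => ((tau A B σ : E ≃+* E) : E → E)) := by
    have h1 := (linearIndependent_monoidHom E E).comp
      (fun σ : M ≃ₐ[F] M => (((tau A B σ : E ≃+* E) : E →+* E) : E →* E)) (by
        intro σ σ' he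
        apply tau_ne A B (fun x => ?_) hofinj
        exact DFunLike.congr_fun he x)
    exact h1
  obtain ⟨c, hc⟩ : ∃ c : E, ∑ σ : M ≃ₐ[F] M, s σ * tau A B σ c ≠ 0 := by
    by_contra hcon
    push Not at hcon
    have h1 := Fintype.linearIndependent_iff.1 hlin s (by
      funext c
      rw [Finset.sum_apply]
      exact hcon c)
    exact hs0 1 (h1 1)
  set b : E := ∑ σ : M ≃ₐ[F] M, s σ * tau A B σ c with hb
  have hbτ : ∀ σ, s σ * tau A B σ b = b := by
    intro σ
    rw [hb, map_sum, Finset.mul_sum]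
    have h1 : ∀ σ' ∈ (Finset.univ : Finset (M ≃ₐ[F] M)), s σ * tau A B σ (s σ' * tau A B σ' c) =
        s (σ * σ') * tau A B (σ * σ') c := by
      intro σ' _
      rw [map_mul, hcoc, tau_mul]
      ring
    rw [Finset.sum_congr rfl h1]
    exact Equiv.sum_comp (Equiv.mulLeft σ) (fun σ' => s σ' * tau A B σ' c)
  set β : E := α * b ^ 2 with hβ
  have hβ0 : β ≠ 0 := mul_ne_zero hα0 (pow_ne_zero 2 hc)
  have hβinv : ∀ σ, tau A B σ β = β := by
    intro σ
    rw [hβ, map_mul, map_pow, hs1]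
    have h1 := hbτ σ
    calc α * s σ ^ 2 * tau A B σ b ^ 2 = α * (s σ * tau A B σ b) ^ 2 := by ring
      _ = α * b ^ 2 := by rw [h1]
  -- descent of β
  obtain ⟨q, hq⟩ := AdjoinRoot.mk_surjective β
  set p := q %ₘ (fM M A B) with hp
  have hpβ : AdjoinRoot.mk (fM M A B) p = β := by
    rw [← hq, AdjoinRoot.mk_eq_mk, hp, modByMonic_eq_sub_mul_div]
    exact ⟨-(q /ₘ fM M A B), by ring⟩
  have hpσ : ∀ σ : M ≃ₐ[F] M, p.map ((σ : M ≃+* M) : M →+* M) = p := by
    intro σ
    have h1 := hβinv σ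
    rw [← hpβ, tau_mk, AdjoinRoot.mk_eq_mk] at h1
    by_contra hne
    have h2 : p.map ((σ : M ≃+* M) : M →+* M) - p ≠ 0 := sub_ne_zero.2 hne
    have h3 : (p.map ((σ : M ≃+* M) : M →+* M) - p).degree < (fM M A B).degree := by
      have h4 : p.degree < (fM M A B).degree := degree_modByMonic_lt _ hmon
      refine lt_of_le_of_lt (degree_sub_le _ _) (max_lt ?_ h4)
      rw [degree_map]
      exact h4
    exact h2 (eq_zero_of_dvd_of_degree_lt h1 h3)
  have hlift : p ∈ Polynomial.lifts (algebraMap F M) := by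
    rw [Polynomial.lifts_iff_coeff_lifts]
    intro i
    rw [IsGalois.mem_range_algebraMap_iff_fixed]
    intro σ
    have h1 := congrArg (fun r => r.coeff i) (hpσ σ)
    simp only [coeff_map] at h1
    exact h1
  obtain ⟨h₀, hh₀⟩ := (Polynomial.mem_lifts _).1 hlift
  obtain ⟨t, ht⟩ := AdjoinRoot.mk_surjective (b⁻¹ : E)
  have hmk : AdjoinRoot.mk (fM M A B) (h₀.map (algebraMap F M)) = β := by rw [hh₀, hpβ]
  have hcbm : (cb A B).map (algebraMap F M) = fM M A B := cb_map _ _ _
  have hirr₀ : Irreducible (cb A B) := by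
    apply Polynomial.Monic.irreducible_of_irreducible_map (algebraMap F M) _ (cb_monic A B)
    rw [hcbm]
    exact hirr
  refine ⟨h₀, t, ?_, ?_, ?_, ?_⟩
  · apply IsCoprime.symm
    rw [hirr₀.coprime_iff_not_dvd]
    intro hd
    apply hβ0
    rw [← hmk, AdjoinRoot.mk_eq_zero, ← hcbm]
    exact Polynomial.map_dvd _ hd
  · apply IsCoprime.symm
    rw [hirr.coprime_iff_not_dvd]
    intro hd
    have h1 : (b⁻¹ : E) = 0 := by
      rw [← ht, AdjoinRoot.mk_eq_zero]
      exact hd
    exact inv_ne_zero hc h1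
  · -- the norm
    have hNβ : Algebra.norm M β = (n * Algebra.norm M b) * (n * Algebra.norm M b) := by
      rw [hβ, map_mul, map_pow, hn']
      ring
    have hfix : ∀ σ : M ≃ₐ[F] M, σ (n * Algebra.norm M b) = n * Algebra.norm M b := by
      intro σ
      have h1 := congrArg (Algebra.norm M) (hbτ σ)
      rw [map_mul, hs2, tau_norm] at h1
      rw [map_mul]
      rw [div_mul_eq_mul_div, div_eq_iff hn0] at h1
      rw [h1, mul_comm]
    obtain ⟨m, hm⟩ := (IsGalois.mem_range_algebraMap_iff_fixed (F := F) (n * Algebra.norm M b)).2 hfix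
    refine ⟨m, ?_⟩
    apply (algebraMap F M).injective
    have h1 := norm_map (algebraMap F M) (cb A B) (cb_monic A B) h₀
    rw [h1, map_mul, hm, ← hNβ, ← hmk]
    rw [hcbm]
  · rw [← AdjoinRoot.mk_eq_mk, map_mul, map_pow, hmk, ht, hβ]
    show α = _
    have hc' : b ≠ 0 := hc
    field_simp

end Pool.Agent.H390.UN
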