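import Pool.Agent.H459.UN.Stm

set_option autoImplicit false
set_option linter.all false

open Polynomial IsDedekindDomain NumberField

namespace Pool.Agent.H390.UN

open Pool.Agent.H459.UN

section abs

variable {R k : Type} [CommRing R] [Field k] (f : R →+* k)

/-- the counting in a finite ring with a homomorphism to a field whose kernel has square zero -/
theorem count [Finite R] (hf : Function.Surjective f) (hunit : ∀ x : R, f x ≠ 0 → IsUnit x)
    (h2 : (2 : k) ≠ 0) (h3 : (3 : k) ≠ 0) (N : ℕ) (hN : Nat.card k = N) (hR : Nat.card R = N ^ 2)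
    (hN0 : 0 < N) :
    Nat.card {p : R × R // 4 * p.1 ^ 3 + 27 * p.2 ^ 2 = 0} ≤ 3 * N ^ 2 := by
  classical
  have hker : Nat.card f.toAddMonoidHom.ker = N := by
    have h1 := AddSubgroup.card_mul_index f.toAddMonoidHom.ker
    rw [AddSubgroup.index_ker] at h1
    have h4 : Nat.card f.toAddMonoidHom.range = N := by
      have h5 : f.toAddMonoidHom.range = ⊤ := AddMonoidHom.range_eq_top.2 hf
      rw [h5, AddSubgroup.card_top, hN]
    rw [h4, hR, sq] at h1
    exact Nat.eq_of_mul_eq_mul_right hN0 h1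
  have h27 : (27 : k) ≠ 0 := by
    have : (27 : k) = 3 ^ 3 := by norm_num
    rw [this]
    exact pow_ne_zero _ h3
  have h4' : (4 : k) ≠ 0 := by
    have : (4 : k) = 2 ^ 2 := by norm_num
    rw [this]
    exact pow_ne_zero _ h2
  have hrel : ∀ p : R × R, 4 * p.1 ^ 3 + 27 * p.2 ^ 2 = 0 →
      4 * f p.1 ^ 3 + 27 * f p.2 ^ 2 = 0 := by
    intro p hp
    have h := congrArg f hp
    rw [map_add, map_mul, map_mul, map_pow, map_pow, map_zero] at h
    rw [map_ofNat, map_ofNat] at h
    exact h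
  have hb0 : ∀ p : R × R, 4 * p.1 ^ 3 + 27 * p.2 ^ 2 = 0 → f p.1 = 0 → f p.2 = 0 := by
    intro p hp ha
    have h := hrel p hp
    rw [ha, zero_pow (by norm_num), mul_zero, zero_add] at h
    exact pow_eq_zero_iff (by norm_num) |>.1 ((mul_eq_zero.1 h).resolve_left h27)
  have hb1 : ∀ p : R × R, 4 * p.1 ^ 3 + 27 * p.2 ^ 2 = 0 → f p.1 ≠ 0 → f p.2 ≠ 0 := by
    intro p hp ha hb
    have h := hrel p hp
    rw [hb, zero_pow (by norm_num), mul_zero, add_zero] at h
    exact ha (pow_eq_zero_iff (by norm_num) |>.1 ((mul_eq_zero.1 h).resolve_left h4'))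
  have hpm : ∀ a b b' : R, 4 * a ^ 3 + 27 * b ^ 2 = 0 → 4 * a ^ 3 + 27 * b' ^ 2 = 0 → f a ≠ 0 →
      b' = b ∨ b' = -b := by
    intro a b b' h h' ha
    have hb := hb1 (a, b) h ha
    have hu27 : IsUnit (27 : R) := hunit _ (by rw [map_ofNat]; exact h27)
    have e1 : 27 * ((b - b') * (b + b')) = 0 := by
      have : 27 * ((b - b') * (b + b')) = (4 * a ^ 3 + 27 * b ^ 2) - (4 * a ^ 3 + 27 * b' ^ 2) := by
        ring
      rw [this, h, h', sub_zero]
    have e2 : (b - b') * (b + b') = 0 := (hu27.mul_right_eq_zero).1 e1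
    by_cases h5 : f (b - b') = 0
    · have h6 : f (b + b') ≠ 0 := by
        intro h7
        have h8 : f (b - b') + f (b + b') = 2 * f b := by
          rw [map_sub, map_add]
          ring
        rw [h5, h7, add_zero] at h8
        exact hb ((mul_eq_zero.1 h8.symm).resolve_left h2)
      left
      have h9 := ((hunit _ h6).mul_left_eq_zero).1 e2
      exact (sub_eq_zero.1 h9).symm
    · right
      have h9 := ((hunit _ h5).mul_right_eq_zero).1 e2
      exact (neg_eq_of_add_eq_zero_right h9).symm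
  -- the chosen root
  set ch : R → R := fun a => if h : ∃ b, 4 * a ^ 3 + 27 * b ^ 2 = 0 then h.choose else 0 with hch
  have hchs : ∀ a b : R, 4 * a ^ 3 + 27 * b ^ 2 = 0 → 4 * a ^ 3 + 27 * (ch a) ^ 2 = 0 := by
    intro a b h
    have hex : ∃ b, 4 * a ^ 3 + 27 * b ^ 2 = 0 := ⟨b, h⟩
    simp only [hch]
    rw [dif_pos hex]
    exact hex.choose_spec
  set g : {p : R × R // 4 * p.1 ^ 3 + 27 * p.2 ^ 2 = 0} →
      (R × Bool) ⊕ (f.toAddMonoidHom.ker × f.toAddMonoidHom.ker) := fun p =>
    if h : f p.1.1 = 0 then Sum.inr (⟨p.1.1, h⟩, ⟨p.1.2, hb0 p.1 p.2 h⟩)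
    else Sum.inl (p.1.1, decide (p.1.2 = ch p.1.1)) with hg
  have hinj : Function.Injective g := by
    rintro ⟨⟨a, b⟩, hp⟩ ⟨⟨a', b'⟩, hp'⟩ h
    simp only [hg] at h
    by_cases ha : f a = 0
    · by_cases ha' : f a' = 0
      · rw [dif_pos ha, dif_pos ha'] at h
        simp only [Sum.inr.injEq, Prod.mk.injEq] at h
        apply Subtype.ext
        exact Prod.ext (congrArg Subtype.val h.1) (congrArg Subtype.val h.2)
      · rw [dif_pos ha, dif_neg ha'] at h
        exact absurd h (by simp)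
    · by_cases ha' : f a' = 0
      · rw [dif_neg ha, dif_pos ha'] at h
        exact absurd h (by simp)
      · rw [dif_neg ha, dif_neg ha'] at h
        simp only [Sum.inl.injEq, Prod.mk.injEq] at h
        obtain ⟨h1, h2'⟩ := h
        subst h1
        apply Subtype.ext
        refine Prod.ext rfl ?_
        show b = b'
        have hc := hchs a b hp
        rcases hpm a (ch a) b hc hp ha with e | e
        · have h3' : decide (b = ch a) = true := decide_eq_true e
          rw [h3'] at h2'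
          have h4 : b' = ch a := of_decide_eq_true h2'.symm
          rw [e, h4]
        · by_cases e2 : b = ch a
          · have h3' : decide (b = ch a) = true := decide_eq_true e2
            rw [h3'] at h2'
            have h4 : b' = ch a := of_decide_eq_true h2'.symm
            rw [e2, h4]
          · have h3' : decide (b = ch a) = false := decide_eq_false e2
            rw [h3'] at h2'
            have h4 : ¬ b' = ch a := of_decide_eq_false h2'.symm
            rcases hpm a (ch a) b' hc hp' ha with e' | e'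
            · exact absurd e' h4
            · rw [e, e']
  have hfin : Finite ((R × Bool) ⊕ (f.toAddMonoidHom.ker × f.toAddMonoidHom.ker)) := inferInstance
  refine (Nat.card_le_card_of_injective g hinj).trans ?_
  rw [Nat.card_sum, Nat.card_prod, Nat.card_prod, hker, hR, Nat.card_eq_fintype_card,
    Fintype.card_bool]
  nlinarith

end abs

theorem res : S_RES := by
  intro F _ _ w h6
  set P := w.asIdeal with hP
  have hPm : P.IsMaximal := w.isMaximal
  have hPne : P ≠ ⊥ := w.ne_bot
  have hle : P ^ 2 ≤ P := Ideal.pow_le_self (by norm_num)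
  letI : Field (𝓞 F ⧸ P) := Ideal.Quotient.field P
  set f : (𝓞 F ⧸ P ^ 2) →+* (𝓞 F ⧸ P) := Ideal.Quotient.factor hle with hf
  have hfm : ∀ x : 𝓞 F, f (Ideal.Quotient.mk (P ^ 2) x) = Ideal.Quotient.mk P x := fun x => rfl
  have hsurj : Function.Surjective f := by
    intro y
    obtain ⟨x, rfl⟩ := Ideal.Quotient.mk_surjective y
    exact ⟨Ideal.Quotient.mk (P ^ 2) x, hfm x⟩
  have h2P : (2 : 𝓞 F) ∉ P := by
    intro h
    apply h6
    have : (6 : 𝓞 F) = 3 * 2 := by norm_num
    rw [this]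
    exact P.mul_mem_left _ h
  have h3P : (3 : 𝓞 F) ∉ P := by
    intro h
    apply h6
    have : (6 : 𝓞 F) = 2 * 3 := by norm_num
    rw [this]
    exact P.mul_mem_left _ h
  have hunit : ∀ x : 𝓞 F ⧸ P ^ 2, f x ≠ 0 → IsUnit x := by
    intro x hx
    obtain ⟨y, rfl⟩ := Ideal.Quotient.mk_surjective x
    have hy : y ∉ P := by
      intro h
      apply hx
      rw [hfm]
      exact Ideal.Quotient.eq_zero_iff_mem.2 h
    obtain ⟨a, i, hi, h1⟩ := hPm.exists_inv hy
    have hi2 : Ideal.Quotient.mk (P ^ 2) i * Ideal.Quotient.mk (P ^ 2) i = 0 := by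
      rw [← map_mul, Ideal.Quotient.eq_zero_iff_mem, sq]
      exact Ideal.mul_mem_mul hi hi
    have h2 : Ideal.Quotient.mk (P ^ 2) a * Ideal.Quotient.mk (P ^ 2) y =
        1 - Ideal.Quotient.mk (P ^ 2) i := by
      rw [← map_mul, eq_sub_iff_add_eq, ← map_add, h1, map_one]
    refine IsUnit.of_mul_eq_one (Ideal.Quotient.mk (P ^ 2) a * (1 + Ideal.Quotient.mk (P ^ 2) i)) ?_
    calc Ideal.Quotient.mk (P ^ 2) y * (Ideal.Quotient.mk (P ^ 2) a * (1 + Ideal.Quotient.mk (P ^ 2) i))
        = (Ideal.Quotient.mk (P ^ 2) a * Ideal.Quotient.mk (P ^ 2) y) *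
            (1 + Ideal.Quotient.mk (P ^ 2) i) := by ring
      _ = 1 - Ideal.Quotient.mk (P ^ 2) i * Ideal.Quotient.mk (P ^ 2) i := by rw [h2]; ring
      _ = 1 := by rw [hi2, sub_zero]
  have hPP : P ^ 2 ≠ ⊥ := pow_ne_zero 2 hPne
  have hfinR : Finite (𝓞 F ⧸ P ^ 2) := Ideal.finiteQuotientOfFreeOfNeBot _ hPP
  have h2k : (2 : 𝓞 F ⧸ P) ≠ 0 := by
    intro h
    apply h2P
    rw [← Ideal.Quotient.eq_zero_iff_mem, map_ofNat]
    exact h
  have h3k : (3 : 𝓞 F ⧸ P) ≠ 0 := by
    intro h
    apply h3P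
    rw [← Ideal.Quotient.eq_zero_iff_mem, map_ofNat]
    exact h
  have hN0 : 0 < Ideal.absNorm P := by
    rw [Nat.pos_iff_ne_zero]
    intro h
    exact hPne (Ideal.absNorm_eq_zero_iff.1 h)
  refine count f hsurj hunit h2k h3k (Ideal.absNorm P) ?_ ?_ hN0
  · rw [Ideal.absNorm_apply, Submodule.cardQuot_apply]
  · rw [← map_pow, Ideal.absNorm_apply, Submodule.cardQuot_apply]

end Pool.Agent.H390.UN
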